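import Pool.Agent.H6.RP3.Last

/-!
Team RP (MP_a57ff3_nt), helper6. Two-sided safety, decay of the probability to avoid the middle,
the pointwise probability of an unsafe walk.
-/

set_option autoImplicit false

namespace H6RP3

open Finset H54RP

variable {ι : Type*} [Fintype ι] {c : ι → ℤ}

open Classical in
/-- two-sided safety factor, `m` moves remain -/
noncomputable def chi2 (F : Flow c) (m : ℕ) (X : ℤ) : ℝ :=
  if Unif F (X - 4 ^ m) (2 * 4 ^ m) then 1 else 0

theorem chi2_nonneg (F : Flow c) (m : ℕ) (X : ℤ) : 0 ≤ chi2 F m X := by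
  unfold chi2; split_ifs <;> norm_num

theorem chi2_le_one (F : Flow c) (m : ℕ) (X : ℤ) : chi2 F m X ≤ 1 := by
  unfold chi2; split_ifs <;> norm_num

theorem chi2_unif (F : Flow c) (m : ℕ) (X : ℤ) (h : chi2 F m X ≠ 0) :
    Unif F (X - 4 ^ m) (2 * 4 ^ m) := by
  unfold chi2 at h
  by_contra hc
  rw [if_neg hc] at h
  exact h rfl

theorem chi2_safe (F : Flow c) (m : ℕ) (X : ℤ) (h : chi2 F (m + 1) X ≠ 0) (v : ι) :
    F.W (X + 4 ^ (m + 1)) v = F.W X v := by
  have hu := chi2_unif F (m + 1) X h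
  have hp : (0 : ℤ) < 4 ^ (m + 1) := by positivity
  refine (hu X (X + 4 ^ (m + 1)) ?_ ?_ ?_ ?_ ?_ v).symm
  · linarith
  · linarith
  · linarith
  · linarith
  · rw [add_sub_cancel_left, pow_succ]
    exact ⟨4 ^ m, by ring⟩

/-- on a window of length `4 ^ (m + 1)` which contains a safe state (level `j + 1 ≥ m + 1`) the
kernel is constant on residue classes -/
theorem chi2_K (F : Flow c) {m j : ℕ} (hmj : m ≤ j) {x X Y Z : ℤ}
    (hX : x ≤ X ∧ X < x + 4 ^ (m + 1)) (hY : x ≤ Y ∧ Y < x + 4 ^ (m + 1))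
    (hZ : x ≤ Z ∧ Z < x + 4 ^ (m + 1)) (h : chi2 F (j + 1) X ≠ 0) (hd : (4 : ℤ) ∣ Z - Y) (v : ι) :
    F.K Z v = F.K Y v := by
  have hu := chi2_unif F (j + 1) X h
  have hp : (4 : ℤ) ^ (m + 1) ≤ 4 ^ (j + 1) := pow_le_pow_right₀ (by norm_num) (by omega)
  have hW : ∀ v, F.W Y v = F.W Z v := fun v =>
    hu Y Z (by linarith [hY.1, hX.2]) (by linarith [hY.2, hX.1]) (by linarith [hZ.1, hX.2])
      (by linarith [hZ.2, hX.1]) hd v
  have hw : F.w Y = F.w Z := sum_congr rfl fun v _ => hW v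
  unfold Flow.K
  rw [hW v, hw]

/-- splitting of a window of length `4 ^ (u + m)` by the residue modulo `4 ^ u` -/
theorem sum_range_pow (u m : ℕ) (q : ℕ → ℝ) :
    ∑ i ∈ range (4 ^ (u + m)), q i =
      ∑ i0 ∈ range (4 ^ u), ∑ i1 ∈ range (4 ^ m), q (i0 + 4 ^ u * i1) := by
  rw [← sum_product' (range (4 ^ u)) (range (4 ^ m)) (f := fun r i => q (r + 4 ^ u * i))]
  symm
  have hpos : 0 < 4 ^ u := by positivity
  refine Finset.sum_nbij' (fun p => p.1 + 4 ^ u * p.2) (fun i => (i % 4 ^ u, i / 4 ^ u))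
    ?_ ?_ ?_ ?_ ?_
  · rintro ⟨r, i⟩ h
    simp only [mem_product, mem_range] at h ⊢
    rw [pow_add]
    calc r + 4 ^ u * i < 4 ^ u + 4 ^ u * i := by omega
      _ = 4 ^ u * (i + 1) := by ring
      _ ≤ 4 ^ u * 4 ^ m := Nat.mul_le_mul_left _ h.2
  · intro i h
    simp only [mem_product, mem_range] at h ⊢
    rw [pow_add] at h
    exact ⟨Nat.mod_lt _ hpos, Nat.div_lt_of_lt_mul h⟩
  · rintro ⟨r, i⟩ h
    simp only [mem_product, mem_range] at h
    simp only [Prod.mk.injEq]
    constructor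
    · rw [Nat.add_mul_mod_self_left, Nat.mod_eq_of_lt h.1]
    · rw [Nat.add_mul_div_left _ _ hpos, Nat.div_eq_of_lt h.1, zero_add]
  · intro i h
    exact Nat.mod_add_div i (4 ^ u)
  · rintro ⟨r, i⟩ h
    rfl

section
variable (F : Flow c) (Om Om' : ℤ → ℝ) (hO : ∀ X, 0 ≤ Om X) (hO1 : ∀ X, Om X ≤ 1)
  (hO' : ∀ X, 0 ≤ Om' X) (hO1' : ∀ X, Om' X ≤ 1)

include hO hO1 hO1' in
/-- pushing a sparse window through `u` moves -/
theorem push_window (m : ℕ) (B : ℝ) (hB : ∀ j, m ≤ j → ∀ y : ℤ,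
    ∑ i ∈ range (4 ^ m), Nn F (chi2 F) Om j (y + (i : ℕ)) ≤ B) (hB0 : 0 ≤ B)
    (hOm : ∀ y : ℤ, ∀ i : ℕ, i < 4 ^ m → Om' y ≤ Om (y + (i : ℕ))) (u : ℕ) :
    ∀ j, m ≤ j → ∀ x : ℤ,
    ∑ i ∈ range (4 ^ m), (1 - Om (x + 4 ^ u * (i : ℕ))) * Nn F (chi2 F) Om (j + u)
      (x + 4 ^ u * (i : ℕ)) ≤ Fl F (fun _ _ => 1) (fun X => 1 - Om' X) u x * B ∧
    (1 ≤ u → ∑ i ∈ range (4 ^ m), Nn F (chi2 F) Om (j + u) (x + 4 ^ u * (i : ℕ)) ≤
      Fl F (fun _ _ => 1) (fun X => 1 - Om' X) u x * B) := by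
  have hN0 := Nn_nonneg F (chi2_nonneg F) hO1
  induction u with
  | zero =>
    intro j hj x
    refine ⟨?_, fun h => absurd h (by norm_num)⟩
    simp only [pow_zero, one_mul, Fl, add_zero]
    calc ∑ i ∈ range (4 ^ m), (1 - Om (x + (i : ℕ))) * Nn F (chi2 F) Om j (x + (i : ℕ))
        ≤ ∑ i ∈ range (4 ^ m), (1 - Om' x) * Nn F (chi2 F) Om j (x + (i : ℕ)) := by
          refine sum_le_sum fun i hi => ?_
          have := hOm x i (mem_range.1 hi)
          exact mul_le_mul_of_nonneg_right (by linarith) (hN0 _ _)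
      _ = (1 - Om' x) * ∑ i ∈ range (4 ^ m), Nn F (chi2 F) Om j (x + (i : ℕ)) := by rw [mul_sum]
      _ ≤ (1 - Om' x) * B :=
          mul_le_mul_of_nonneg_left (hB j hj x) (by linarith [hO1' x])
  | succ u ih =>
    intro j hj x
    have main : ∑ i ∈ range (4 ^ m), Nn F (chi2 F) Om (j + (u + 1))
        (x + 4 ^ (u + 1) * (i : ℕ)) ≤
        Fl F (fun _ _ => 1) (fun X => 1 - Om' X) (u + 1) x * B := by
      have hR0 : 0 ≤ Fl F (fun _ _ => 1) (fun X => 1 - Om' X) (u + 1) x * B :=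
        mul_nonneg (Fl_nonneg F (fun _ _ => zero_le_one) (fun X => by linarith [hO1' X]) _ _) hB0
      by_cases hall : ∀ i : ℕ, i < 4 ^ m →
          chi2 F (j + (u + 1)) (x + 4 ^ (u + 1) * (i : ℕ)) = 0
      · have : ∑ i ∈ range (4 ^ m), Nn F (chi2 F) Om (j + (u + 1))
            (x + 4 ^ (u + 1) * (i : ℕ)) = 0 := by
          refine sum_eq_zero fun i hi => ?_
          have h0 := hall i (mem_range.1 hi)
          rw [← add_assoc] at h0 ⊢
          simp only [Nn]
          rw [h0, zero_mul]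
        rw [this]; exact hR0
      · push Not at hall
        obtain ⟨i0, hi0, hne⟩ := hall
        have hin : ∀ i : ℕ, i < 4 ^ m → x ≤ x + 4 ^ (u + 1) * (i : ℕ) ∧
            x + 4 ^ (u + 1) * (i : ℕ) < x + 4 ^ (m + u + 1) := by
          intro i hi
          have h1 : (0 : ℤ) ≤ 4 ^ (u + 1) * (i : ℕ) := by positivity
          have h2 : (4 : ℤ) ^ (u + 1) * (i : ℕ) < 4 ^ (m + u + 1) := by
            have h3 : (i : ℤ) < 4 ^ m := by exact_mod_cast hi
            calc (4 : ℤ) ^ (u + 1) * (i : ℕ) < 4 ^ (u + 1) * 4 ^ m :=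
                  mul_lt_mul_of_pos_left h3 (by positivity)
              _ = 4 ^ (m + u + 1) := by ring
          constructor <;> linarith
        have h00 : x ≤ x ∧ x < x + 4 ^ (m + u + 1) := by
          have : (0 : ℤ) < 4 ^ (m + u + 1) := by positivity
          constructor <;> linarith
        have hK : ∀ i : ℕ, i < 4 ^ m → ∀ v, F.K (x + 4 ^ (u + 1) * (i : ℕ)) v = F.K x v := by
          intro i hi v
          refine chi2_K F (m := m + u) (j := j + u) (by omega) (hin i0 hi0) h00 (hin i hi) ?_ ?_ v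
          · rw [add_assoc]; exact hne
          · rw [add_sub_cancel_left, pow_succ]
            exact ⟨4 ^ u * i, by ring⟩
        calc ∑ i ∈ range (4 ^ m), Nn F (chi2 F) Om (j + (u + 1)) (x + 4 ^ (u + 1) * (i : ℕ))
            ≤ ∑ i ∈ range (4 ^ m), ∑ v, F.K x v *
              ((1 - Om (T c v x + 4 ^ u * (i : ℕ))) *
                Nn F (chi2 F) Om (j + u) (T c v x + 4 ^ u * (i : ℕ))) := by
              refine sum_le_sum fun i hi => ?_
              rw [mem_range] at hi
              have hT : ∀ v, T c v (x + 4 ^ (u + 1) * (i : ℕ)) = T c v x + 4 ^ u * (i : ℕ) := by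
                intro v
                rw [← T_add]; congr 1; ring
              rw [← add_assoc]
              simp only [Nn]
              have e : ∑ v, F.K (x + 4 ^ (u + 1) * (i : ℕ)) v *
                  ((1 - Om (T c v (x + 4 ^ (u + 1) * (i : ℕ)))) *
                    Nn F (chi2 F) Om (j + u) (T c v (x + 4 ^ (u + 1) * (i : ℕ)))) =
                  ∑ v, F.K x v * ((1 - Om (T c v x + 4 ^ u * (i : ℕ))) *
                    Nn F (chi2 F) Om (j + u) (T c v x + 4 ^ u * (i : ℕ))) := by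
                refine sum_congr rfl fun v _ => ?_
                rw [hK i hi v, hT v]
              rw [e]
              have hs0 : 0 ≤ ∑ v, F.K x v * ((1 - Om (T c v x + 4 ^ u * (i : ℕ))) *
                  Nn F (chi2 F) Om (j + u) (T c v x + 4 ^ u * (i : ℕ))) :=
                sum_nonneg fun v _ => mul_nonneg (F.K_nonneg x v)
                  (mul_nonneg (by linarith [hO1 (T c v x + 4 ^ u * (i : ℕ))]) (hN0 _ _))
              have := chi2_le_one F (j + u + 1) (x + 4 ^ (u + 1) * (i : ℕ))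
              nlinarith
          _ = ∑ v, F.K x v * ∑ i ∈ range (4 ^ m), (1 - Om (T c v x + 4 ^ u * (i : ℕ))) *
                Nn F (chi2 F) Om (j + u) (T c v x + 4 ^ u * (i : ℕ)) := by
              rw [sum_comm]
              exact sum_congr rfl fun v _ => (mul_sum _ _ _).symm
          _ ≤ ∑ v, F.K x v * (Fl F (fun _ _ => 1) (fun X => 1 - Om' X) u (T c v x) * B) :=
              sum_le_sum fun v _ => mul_le_mul_of_nonneg_left (ih j hj (T c v x)).1
                (F.K_nonneg x v)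
          _ = Fl F (fun _ _ => 1) (fun X => 1 - Om' X) (u + 1) x * B := by
              simp only [Fl, one_mul]
              rw [sum_mul]
              exact sum_congr rfl fun v _ => by ring
    refine ⟨le_trans (sum_le_sum fun i _ => ?_) main, fun _ => main⟩
    have a0 := hN0 (j + (u + 1)) (x + 4 ^ (u + 1) * (i : ℕ))
    have a1 := hO (x + 4 ^ (u + 1) * (i : ℕ))
    nlinarith

/-- `Fl` of `1 - Om` -/
theorem Fl_one_sub_le (u : ℕ) (x : ℤ) :
    Fl F (fun _ _ => 1) (fun X => 1 - Om' X) u x ≤ 1 - Fl F (fun _ _ => 1) Om' u x := by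
  induction u generalizing x with
  | zero => simp [Fl]
  | succ u ih =>
    simp only [Fl, one_mul]
    have h1 := F.sum_K_le x
    have h2 : ∑ v, F.K x v * Fl F (fun _ _ => 1) (fun X => 1 - Om' X) u (T c v x) ≤
        ∑ v, F.K x v * (1 - Fl F (fun _ _ => 1) Om' u (T c v x)) :=
      sum_le_sum fun v _ => mul_le_mul_of_nonneg_left (ih _) (F.K_nonneg x v)
    have h3 : ∑ v, F.K x v * (1 - Fl F (fun _ _ => 1) Om' u (T c v x)) =
        ∑ v, F.K x v - ∑ v, F.K x v * Fl F (fun _ _ => 1) Om' u (T c v x) := by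
      rw [← sum_sub_distrib]
      exact sum_congr rfl fun v _ => by ring
    linarith

theorem Fl_w_zero (Om'' : ℤ → ℝ) {u : ℕ} (hu : 1 ≤ u) {x : ℤ} (hx : F.w x = 0) :
    Fl F (fun _ _ => 1) Om'' u x = 0 := by
  obtain ⟨u, rfl⟩ : ∃ u', u = u' + 1 := ⟨u - 1, by omega⟩
  simp only [Fl, one_mul]
  refine sum_eq_zero fun v _ => ?_
  unfold Flow.K
  rw [hx, div_zero, zero_mul]

include hO hO1 hO' hO1' in
/-- decay of the probability to avoid the middle -/
theorem N_window (r : ℕ) (hr : 1 ≤ r) (p : ℝ) (hp : 0 ≤ p) (hp1 : 2 * p * 4 ^ r ≤ 1)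
    (hL : ∀ x : ℤ, (∀ i : ℕ, i < 4 ^ r → F.w (x + i) ≠ 0) →
      2 * p * 4 ^ r ≤ ∑ i ∈ range (4 ^ r), Fl F (fun _ _ => 1) Om' r (x + (i : ℕ)))
    (n0 : ℕ) (hOm : ∀ y : ℤ, ∀ i : ℕ, i < 4 ^ (r * n0) → Om' y ≤ Om (y + (i : ℕ)))
    (n : ℕ) (hn : n ≤ n0 + 1) :
    ∀ j, r * n ≤ j → ∀ x : ℤ, ∑ i ∈ range (4 ^ (r * n)), Nn F (chi2 F) Om j (x + (i : ℕ)) ≤
      (1 - 2 * p) ^ n * 4 ^ (r * n) := by
  have hp2 : 2 * p ≤ 1 := by
    have : (1 : ℝ) ≤ 4 ^ r := one_le_pow₀ (by norm_num)
    nlinarith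
  have hN0 := Nn_nonneg F (chi2_nonneg F) hO1
  induction n with
  | zero =>
    intro j _ x
    simp only [mul_zero, pow_zero, range_one, sum_singleton, Nat.cast_zero, add_zero, mul_one]
    exact Nn_le_one F (chi2_nonneg F) (chi2_le_one F) hO hO1 j x
  | succ n ih =>
    intro j hj x
    have ih' := ih (by omega)
    have hB0 : 0 ≤ (1 - 2 * p) ^ n * 4 ^ (r * n) :=
      mul_nonneg (pow_nonneg (by linarith) _) (by positivity)
    have hrn : r * (n + 1) = r + r * n := by ring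
    have hpw : (4 : ℕ) ^ (r * n) ≤ 4 ^ (r * n0) :=
      Nat.pow_le_pow_right (by norm_num) (Nat.mul_le_mul_left _ (by omega))
    obtain ⟨j', rfl⟩ : ∃ j', j = j' + r := ⟨j - r, by omega⟩
    have hj' : r * n ≤ j' := by omega
    have key : ∀ i0 : ℕ, ∑ i1 ∈ range (4 ^ (r * n)),
        Nn F (chi2 F) Om (j' + r) (x + ((i0 + 4 ^ r * i1 : ℕ) : ℤ)) ≤
        Fl F (fun _ _ => 1) (fun X => 1 - Om' X) r (x + (i0 : ℕ)) *
          ((1 - 2 * p) ^ n * 4 ^ (r * n)) := by
      intro i0
      have h1 := (push_window F Om Om' hO hO1 hO1' (r * n) _ ih' hB0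
        (fun y i hi => hOm y i (lt_of_lt_of_le hi hpw)) r j' hj' (x + (i0 : ℕ))).2 hr
      refine le_trans (le_of_eq ?_) h1
      refine sum_congr rfl fun i1 _ => ?_
      congr 1
      push_cast
      ring
    rw [hrn, sum_range_pow]
    refine (sum_le_sum fun i0 _ => key i0).trans ?_
    rw [← sum_mul]
    have hsum : ∑ i0 ∈ range (4 ^ r), Fl F (fun _ _ => 1) (fun X => 1 - Om' X) r (x + (i0 : ℕ)) ≤
        (1 - 2 * p) * 4 ^ r := by
      by_cases hall : ∀ i : ℕ, i < 4 ^ r → F.w (x + i) ≠ 0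
      · have h1 := hL x hall
        have h2 : ∑ i0 ∈ range (4 ^ r),
            Fl F (fun _ _ => 1) (fun X => 1 - Om' X) r (x + (i0 : ℕ)) ≤
            ∑ i0 ∈ range (4 ^ r), (1 - Fl F (fun _ _ => 1) Om' r (x + (i0 : ℕ))) :=
          sum_le_sum fun i _ => Fl_one_sub_le F Om' r _
        rw [sum_sub_distrib, sum_const, card_range, nsmul_eq_mul, mul_one] at h2
        push_cast at h2
        linarith
      · push Not at hall
        obtain ⟨i1, hi1, hw⟩ := hall
        have h2 : ∑ i0 ∈ range (4 ^ r),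
            Fl F (fun _ _ => 1) (fun X => 1 - Om' X) r (x + (i0 : ℕ)) ≤
            ∑ i0 ∈ range (4 ^ r), (if i0 = i1 then (0 : ℝ) else 1) := by
          refine sum_le_sum fun i _ => ?_
          by_cases h : i = i1
          · rw [if_pos h, h]
            exact le_of_eq (Fl_w_zero F _ hr hw)
          · rw [if_neg h]
            exact Fl_le_one F (fun _ _ => zero_le_one) (fun _ _ => le_rfl)
              (fun X => by linarith [hO1' X]) (fun X => by linarith [hO' X]) r _
        have h3 : ∑ i0 ∈ range (4 ^ r), (if i0 = i1 then (0 : ℝ) else 1) = 4 ^ r - 1 := by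
          have h4 : ∀ i0 ∈ range (4 ^ r), (if i0 = i1 then (0 : ℝ) else 1) =
              1 - (if i0 = i1 then 1 else 0) := by
            intro i _; split_ifs <;> norm_num
          rw [sum_congr rfl h4, sum_sub_distrib, sum_const, card_range, nsmul_eq_mul, mul_one,
            sum_ite_eq' (range (4 ^ r)) i1 (fun _ => (1 : ℝ)), if_pos (mem_range.2 hi1)]
          push_cast
          ring
        rw [h3] at h2
        linarith
    calc (∑ i0 ∈ range (4 ^ r), Fl F (fun _ _ => 1) (fun X => 1 - Om' X) r (x + (i0 : ℕ))) *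
          ((1 - 2 * p) ^ n * 4 ^ (r * n)) ≤
          ((1 - 2 * p) * 4 ^ r) * ((1 - 2 * p) ^ n * 4 ^ (r * n)) :=
          mul_le_mul_of_nonneg_right hsum hB0
      _ = (1 - 2 * p) ^ (n + 1) * 4 ^ (r + r * n) := by rw [pow_succ, pow_add]; ring

end

/-! ### the pointwise probability of an unsafe walk -/

section
variable {γ : Type*} (D : LFam c γ)

/-- upper bound for the probability of an unsafe walk -/
noncomputable def H2 (g : γ) : ℕ → ℤ → ℝ
  | 0, _ => 0
  | m + 1, X => (1 - chi2 (D.F g) (m + 1) X) + ∑ v ∈ D.legs X, H2 g m (T c v X)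

theorem H2_nonneg (g : γ) (m : ℕ) (X : ℤ) : 0 ≤ H2 D g m X := by
  induction m generalizing X with
  | zero => simp [H2]
  | succ m ih =>
    simp only [H2]
    have := chi2_le_one (D.F g) (m + 1) X
    have h2 : 0 ≤ ∑ v ∈ D.legs X, H2 D g m (T c v X) := sum_nonneg fun v _ => ih _
    linarith

theorem one_sub_H2_le {g : γ} (hg : g ∈ D.G) (m : ℕ) (X : ℤ) (hX : (D.F g).w X ≠ 0) :
    1 - H2 D g m X ≤ Fl (D.F g) (chi2 (D.F g)) (fun _ => 1) m X := by
  induction m generalizing X with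
  | zero => simp [Fl, H2]
  | succ m ih =>
    have hF0 := Fl_nonneg (D.F g) (χ := chi2 (D.F g)) (Om := fun _ => 1)
      (chi2_nonneg (D.F g)) (fun _ => zero_le_one)
    by_cases hc : chi2 (D.F g) (m + 1) X = 0
    · have h2 : 1 ≤ H2 D g (m + 1) X := by
        simp only [H2]
        rw [hc]
        have : 0 ≤ ∑ v ∈ D.legs X, H2 D g m (T c v X) := sum_nonneg fun v _ => H2_nonneg D g m _
        linarith
      have h3 := hF0 (m + 1) X
      linarith
    · have hc1 : chi2 (D.F g) (m + 1) X = 1 := by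
        unfold chi2 at hc ⊢
        split_ifs with h
        · rfl
        · rw [if_neg h] at hc; exact absurd rfl hc
      simp only [Fl, H2]
      rw [hc1, one_mul, sub_self, zero_add]
      have h1 : ∑ v, (D.F g).K X v * (1 - H2 D g m (T c v X)) ≤
          ∑ v, (D.F g).K X v * Fl (D.F g) (chi2 (D.F g)) (fun _ => 1) m (T c v X) := by
        refine sum_le_sum fun v _ => ?_
        by_cases hK : (D.F g).K X v = 0
        · rw [hK]; simp
        · refine mul_le_mul_of_nonneg_left (ih _ ?_) ((D.F g).K_nonneg X v)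
          intro h0
          apply hK
          have h2 := (D.F g).W_le_w_T X v
          rw [h0] at h2
          unfold Flow.K
          rw [le_antisymm h2 ((D.F g).nonneg X v), zero_div]
      have h2 : ∑ v, (D.F g).K X v * (1 - H2 D g m (T c v X)) =
          1 - ∑ v, (D.F g).K X v * H2 D g m (T c v X) := by
        rw [← (D.F g).sum_K X hX, ← sum_sub_distrib]
        refine sum_congr rfl fun v _ => ?_
        rw [(D.F g).sum_K X hX]
        ring
      have h3 : ∑ v, (D.F g).K X v * H2 D g m (T c v X) ≤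
          ∑ v ∈ D.legs X, H2 D g m (T c v X) := by
        rw [D.sum_K_legs hg]
        refine sum_le_sum fun v _ => ?_
        have hK : (D.F g).K X v ≤ 1 := by
          refine le_trans ?_ ((D.F g).sum_K_le X)
          exact single_le_sum (f := fun v => (D.F g).K X v) (fun v _ => (D.F g).K_nonneg X v)
            (mem_univ v)
        have := H2_nonneg D g m (T c v X)
        nlinarith
      linarith

theorem sum_H2_le (hleg : ∀ X, (D.legs X).card ≤ 4) (m : ℕ) (x : ℤ) :
    ∑ g ∈ D.G, H2 D g m x ≤ 2 * D.kB * m * 4 ^ m := by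
  have hk := D.kB0
  induction m generalizing x with
  | zero => simp [H2]
  | succ m ih =>
    simp only [H2]
    rw [sum_add_distrib]
    have h2 : ∑ g ∈ D.G, (1 - chi2 (D.F g) (m + 1) x) ≤ D.kB * (2 * 4 ^ (m + 1)) := by
      classical
      have e : ∀ g, (1 - chi2 (D.F g) (m + 1) x) =
          if ¬ Unif (D.F g) (x - 4 ^ (m + 1)) (2 * 4 ^ (m + 1)) then (1 : ℝ) else 0 := by
        intro g
        unfold chi2
        by_cases h : Unif (D.F g) (x - 4 ^ (m + 1)) (2 * 4 ^ (m + 1))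
        · simp [h]
        · simp [h]
      rw [sum_congr rfl fun g _ => e g, ← sum_filter, sum_const, nsmul_eq_mul, mul_one]
      have := D.bad (x - 4 ^ (m + 1)) (2 * 4 ^ (m + 1))
        (by have : (1 : ℤ) ≤ 4 ^ (m + 1) := one_le_pow₀ (by norm_num)
            linarith)
        (D.G.filter fun g => ¬ Unif (D.F g) (x - 4 ^ (m + 1)) (2 * 4 ^ (m + 1)))
        (filter_subset _ _) (fun g hg => (mem_filter.1 hg).2)
      push_cast at this
      exact this
    have h4 : ∑ g ∈ D.G, ∑ v ∈ D.legs x, H2 D g m (T c v x) ≤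
        4 * (2 * D.kB * m * 4 ^ m) := by
      rw [sum_comm]
      have h5 : ∑ v ∈ D.legs x, ∑ g ∈ D.G, H2 D g m (T c v x) ≤
          ∑ v ∈ D.legs x, 2 * D.kB * m * 4 ^ m := sum_le_sum fun v _ => ih _
      rw [sum_const, nsmul_eq_mul] at h5
      refine h5.trans (mul_le_mul_of_nonneg_right ?_ (by positivity))
      exact_mod_cast hleg x
    push_cast
    have e : (4 : ℝ) ^ (m + 1) = 4 * 4 ^ m := by ring
    rw [e] at h2 ⊢
    nlinarith [h2, h4]

/-- pointwise safe probability, averaged over the labels -/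
theorem safe_point (hleg : ∀ X, (D.legs X).card ≤ 4) (m : ℕ)
    (hN : 4 * D.kB * m * 4 ^ m ≤ D.G.card) (X : ℤ) (hX : ∀ g ∈ D.G, 1 ≤ (D.F g).w X) :
    (D.G.card : ℝ) / 2 ≤
      ∑ g ∈ D.G, (D.F g).w X * Fl (D.F g) (chi2 (D.F g)) (fun _ => 1) m X := by
  have h1 : ∑ g ∈ D.G, (1 - H2 D g m X) ≤
      ∑ g ∈ D.G, (D.F g).w X * Fl (D.F g) (chi2 (D.F g)) (fun _ => 1) m X := by
    refine sum_le_sum fun g hg => ?_
    have h2 := one_sub_H2_le D hg m X (by have := hX g hg; intro h0; rw [h0] at this; linarith)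
    have h3 := hX g hg
    have h4 := Fl_nonneg (D.F g) (χ := chi2 (D.F g)) (Om := fun _ => 1)
      (chi2_nonneg (D.F g)) (fun _ => zero_le_one) m X
    nlinarith
  rw [sum_sub_distrib, sum_const, nsmul_eq_mul, mul_one] at h1
  have h5 := sum_H2_le D hleg m X
  linarith

end

end H6RP3
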