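import Pool.Agent.H54.RP.Avg

/-!
Team RP (MP_a57ff3_nt), helper6. Walks stopped at the last visit to the middle.
-/

set_option autoImplicit false

namespace H6RP3

open Finset H54RP

variable {ι : Type*} [Fintype ι] {c : ι → ℤ}

/-- total weight of a walk which stops with weight `φ m X` and otherwise makes a safe move -/
noncomputable def Ft (F : Flow c) (χ φ : ℕ → ℤ → ℝ) : ℕ → ℤ → ℝ
  | 0, X => φ 0 X
  | m + 1, X => φ (m + 1) X + χ (m + 1) X * ∑ v, F.K X v * Ft F χ φ m (T c v X)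

theorem Ft_nonneg (F : Flow c) {χ φ : ℕ → ℤ → ℝ} (hχ : ∀ L X, 0 ≤ χ L X)
    (hφ : ∀ L X, 0 ≤ φ L X) (L : ℕ) (X : ℤ) : 0 ≤ Ft F χ φ L X := by
  induction L generalizing X with
  | zero => exact hφ 0 X
  | succ L ih =>
    exact add_nonneg (hφ _ _)
      (mul_nonneg (hχ _ _) (sum_nonneg fun v _ => mul_nonneg (F.K_nonneg X v) (ih _)))

/-- the comparison inequality with stopping -/
theorem starT (F : Flow c) {χ φ : ℕ → ℤ → ℝ} (hχ : ∀ L X, 0 ≤ χ L X)
    (hχ1 : ∀ L X, χ L X ≤ 1) (hφ : ∀ L X, 0 ≤ φ L X) (hF1 : ∀ L X, Ft F χ φ L X ≤ 1)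
    (s : ℤ) (L0 : ℕ)
    (safe : ∀ L, L < L0 → ∀ X, χ (L + 1) X ≠ 0 → ∀ v, F.W (X + 4 ^ (L + 1) * s) v = F.W X v)
    (f : ℤ → ℝ) (L : ℕ) (hL : L ≤ L0) :
    ∑ X ∈ F.supp, F.w X * Ft F χ φ L X * |f (X + 4 ^ L * s) - f X| ≤
      2 * L * F.E1 f +
        ∑ j ∈ range (L + 1), ∑ X ∈ F.supp, F.w X * φ j X * |f (X + 4 ^ j * s) - f X| := by
  induction L with
  | zero => simp [Ft]
  | succ L ih =>
    have ih' := ih (by omega)
    have hF0 := Ft_nonneg F hχ hφ
    have key : ∀ X, F.w X * Ft F χ φ (L + 1) X * |f (X + 4 ^ (L + 1) * s) - f X| ≤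
        F.w X * φ (L + 1) X * |f (X + 4 ^ (L + 1) * s) - f X| +
        ((∑ v, F.W X v * |f (T c v X) - f X|) +
        (∑ v, F.W X v * (Ft F χ φ L (T c v X) * |f (T c v X + 4 ^ L * s) - f (T c v X)|)) +
        ∑ v, F.W (X + 4 ^ (L + 1) * s) v *
          |f (T c v (X + 4 ^ (L + 1) * s)) - f (X + 4 ^ (L + 1) * s)|) := by
      intro X
      have e1 : F.w X * Ft F χ φ (L + 1) X * |f (X + 4 ^ (L + 1) * s) - f X| =
          F.w X * φ (L + 1) X * |f (X + 4 ^ (L + 1) * s) - f X| +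
          ∑ v, χ (L + 1) X * F.W X v * Ft F χ φ L (T c v X) *
            |f (X + 4 ^ (L + 1) * s) - f X| := by
        simp only [Ft]
        rw [mul_add, add_mul]
        congr 1
        rw [mul_sum, mul_sum, sum_mul]
        refine sum_congr rfl fun v _ => ?_
        rw [← F.w_mul_K X v]
        ring
      rw [e1]
      refine add_le_add le_rfl ?_
      rw [← sum_add_distrib, ← sum_add_distrib]
      refine sum_le_sum fun v _ => ?_
      have hT : T c v (X + 4 ^ (L + 1) * s) = T c v X + 4 ^ L * s := by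
        rw [← T_add]; congr 1; ring
      by_cases hz : χ (L + 1) X = 0
      · rw [hz]
        have a1 := mul_nonneg (F.nonneg X v) (abs_nonneg (f (T c v X) - f X))
        have a2 := mul_nonneg (F.nonneg X v) (mul_nonneg (hF0 L (T c v X))
          (abs_nonneg (f (T c v X + 4 ^ L * s) - f (T c v X))))
        have a3 := mul_nonneg (F.nonneg (X + 4 ^ (L + 1) * s) v)
          (abs_nonneg (f (T c v (X + 4 ^ (L + 1) * s)) - f (X + 4 ^ (L + 1) * s)))
        simp only [zero_mul]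
        linarith
      · have hs := safe L (by omega) X hz v
        rw [hs, hT]
        have htri : |f (X + 4 ^ (L + 1) * s) - f X| ≤ |f (T c v X) - f X| +
            |f (T c v X + 4 ^ L * s) - f (T c v X)| +
            |f (T c v X + 4 ^ L * s) - f (X + 4 ^ (L + 1) * s)| := by
          have := abs_sub_le (f (X + 4 ^ (L + 1) * s)) (f (T c v X + 4 ^ L * s)) (f X)
          have h2 := abs_sub_le (f (T c v X + 4 ^ L * s)) (f (T c v X)) (f X)
          rw [abs_sub_comm (f (X + 4 ^ (L + 1) * s)) (f (T c v X + 4 ^ L * s))] at this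
          linarith
        have hW := F.nonneg X v
        have hFL0 := hF0 L (T c v X)
        have hFL1 := hF1 L (T c v X)
        have hc0 := hχ (L + 1) X
        have hc1 := hχ1 (L + 1) X
        set A := |f (T c v X) - f X|
        set B := |f (T c v X + 4 ^ L * s) - f (T c v X)|
        set C := |f (T c v X + 4 ^ L * s) - f (X + 4 ^ (L + 1) * s)|
        have hA : 0 ≤ A := abs_nonneg _
        have hB : 0 ≤ B := abs_nonneg _
        have hC : 0 ≤ C := abs_nonneg _
        set q := Ft F χ φ L (T c v X)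
        set x := χ (L + 1) X
        have hxq0 : 0 ≤ x * q := mul_nonneg hc0 hFL0
        have hxq1 : x * q ≤ q := by nlinarith
        have hxq2 : x * q ≤ 1 := by nlinarith
        have hWxq : 0 ≤ F.W X v * (x * q) := mul_nonneg hW hxq0
        calc x * F.W X v * q * |f (X + 4 ^ (L + 1) * s) - f X|
            = (F.W X v * (x * q)) * |f (X + 4 ^ (L + 1) * s) - f X| := by ring
          _ ≤ (F.W X v * (x * q)) * (A + B + C) := mul_le_mul_of_nonneg_left htri hWxq
          _ = F.W X v * ((x * q) * A) + F.W X v * ((x * q) * B) + F.W X v * ((x * q) * C) := by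
              ring
          _ ≤ F.W X v * (1 * A) + F.W X v * (q * B) + F.W X v * (1 * C) := by
              gcongr
          _ = F.W X v * A + F.W X v * (q * B) + F.W X v * C := by ring
    have hsum := sum_le_sum fun X (_ : X ∈ F.supp) => key X
    rw [sum_add_distrib, sum_add_distrib, sum_add_distrib] at hsum
    have hpush := F.push (fun Y => Ft F χ φ L Y * |f (Y + 4 ^ L * s) - f Y|)
    have hsh := sum_shift_le F.supp (fun X => ∑ v, F.W X v * |f (T c v X) - f X|)
      (fun X => sum_nonneg fun v _ => mul_nonneg (F.nonneg X v) (abs_nonneg _))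
      (fun X hX => sum_eq_zero fun v _ => by rw [F.off X hX v, zero_mul]) (4 ^ (L + 1) * s)
    have hE : ∑ X ∈ F.supp, ∑ v, F.W X v * |f (T c v X) - f X| = F.E1 f := rfl
    rw [hE] at hsum hsh
    rw [hpush] at hsum
    have h3 : ∑ Y ∈ F.supp, F.w Y * (Ft F χ φ L Y * |f (Y + 4 ^ L * s) - f Y|) =
        ∑ X ∈ F.supp, F.w X * Ft F χ φ L X * |f (X + 4 ^ L * s) - f X| :=
      sum_congr rfl fun X _ => by ring
    rw [h3] at hsum
    rw [sum_range_succ _ (L + 1)]
    push_cast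
    linarith

/-- weight of the safe walks which avoid `Om` after the start -/
noncomputable def Nn (F : Flow c) (χ : ℕ → ℤ → ℝ) (Om : ℤ → ℝ) : ℕ → ℤ → ℝ
  | 0, _ => 1
  | m + 1, X => χ (m + 1) X * ∑ v, F.K X v * ((1 - Om (T c v X)) * Nn F χ Om m (T c v X))

section
variable (F : Flow c) {χ : ℕ → ℤ → ℝ} {Om : ℤ → ℝ} (hχ : ∀ L X, 0 ≤ χ L X)
  (hχ1 : ∀ L X, χ L X ≤ 1) (hO : ∀ X, 0 ≤ Om X) (hO1 : ∀ X, Om X ≤ 1)

include hχ hO1 in
theorem Nn_nonneg (m : ℕ) (X : ℤ) : 0 ≤ Nn F χ Om m X := by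
  induction m generalizing X with
  | zero => simp [Nn]
  | succ m ih =>
    simp only [Nn]
    refine mul_nonneg (hχ _ _) (sum_nonneg fun v _ => mul_nonneg (F.K_nonneg X v)
      (mul_nonneg ?_ (ih _)))
    have := hO1 (T c v X)
    linarith

include hχ hχ1 hO hO1 in
theorem Nn_le_one (m : ℕ) (X : ℤ) : Nn F χ Om m X ≤ 1 := by
  induction m generalizing X with
  | zero => simp [Nn]
  | succ m ih =>
    simp only [Nn]
    have h0 : 0 ≤ ∑ v, F.K X v * ((1 - Om (T c v X)) * Nn F χ Om m (T c v X)) :=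
      sum_nonneg fun v _ => mul_nonneg (F.K_nonneg X v)
        (mul_nonneg (by have := hO1 (T c v X); linarith) (Nn_nonneg F hχ hO1 m _))
    have h1 : ∑ v, F.K X v * ((1 - Om (T c v X)) * Nn F χ Om m (T c v X)) ≤ 1 := by
      refine le_trans (sum_le_sum fun v _ => ?_) (F.sum_K_le X)
      have a0 := F.K_nonneg X v
      have a1 := hO (T c v X)
      have a2 := hO1 (T c v X)
      have a3 := Nn_nonneg F hχ hO1 m (T c v X)
      have a4 := ih (T c v X)
      have a5 : (1 - Om (T c v X)) * Nn F χ Om m (T c v X) ≤ 1 := by nlinarith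
      nlinarith
    have := hχ1 (m + 1) X
    have := hχ (m + 1) X
    nlinarith

/-- decomposition at the last visit -/
theorem Ft_eq (m : ℕ) (X : ℤ) : Ft F χ (fun j Z => Om Z * Nn F χ Om j Z) m X =
    Fl F χ (fun _ => 1) m X - (1 - Om X) * Nn F χ Om m X := by
  induction m generalizing X with
  | zero => simp [Ft, Fl, Nn]
  | succ m ih =>
    simp only [Ft, Fl, Nn]
    have e : ∑ v, F.K X v * Ft F χ (fun j Z => Om Z * Nn F χ Om j Z) m (T c v X) =
        ∑ v, F.K X v * Fl F χ (fun _ => 1) m (T c v X) -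
        ∑ v, F.K X v * ((1 - Om (T c v X)) * Nn F χ Om m (T c v X)) := by
      rw [← sum_sub_distrib]
      refine sum_congr rfl fun v _ => ?_
      rw [ih]; ring
    rw [e]
    ring

include hχ hχ1 hO1 in
theorem Ft_le_one (m : ℕ) (X : ℤ) :
    Ft F χ (fun j Z => Om Z * Nn F χ Om j Z) m X ≤ 1 := by
  rw [Ft_eq]
  have h1 := Fl_le_one F (Om := fun _ => 1) hχ hχ1 (fun _ => zero_le_one) (fun _ => le_rfl) m X
  have h2 := Nn_nonneg F hχ hO1 m X
  have h3 := hO1 X
  nlinarith [mul_nonneg (show 0 ≤ 1 - Om X by linarith) h2]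

end

/-- the main inequality for one flow: `S` contains the support of `Om` -/
theorem last_visit (F : Flow c) {χ : ℕ → ℤ → ℝ} {Om : ℤ → ℝ} (hχ : ∀ L X, 0 ≤ χ L X)
    (hχ1 : ∀ L X, χ L X ≤ 1) (hO : ∀ X, 0 ≤ Om X) (hO1 : ∀ X, Om X ≤ 1) (L : ℕ)
    (safe : ∀ m, m < L → ∀ X, χ (m + 1) X ≠ 0 → ∀ v, F.W (X + 4 ^ (m + 1)) v = F.W X v)
    (f : ℤ → ℝ) (I : Finset ℤ) (hI : ∀ X ∈ I, Om X = 1) (hI' : ∀ X, X ∉ I → Om X = 0)
    (wM : ℝ) (hw : ∀ X, F.w X ≤ wM) (hw0 : 0 ≤ wM) :
    ∑ X ∈ I, F.w X * Fl F χ (fun _ => 1) L X * |f (X + 4 ^ L) - f X| ≤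
      2 * L * F.E1 f +
        wM * ∑ j ∈ range (L + 1), ∑ X ∈ I, Nn F χ Om j X * |f (X + 4 ^ j) - f X| := by
  classical
  have hN0 := Nn_nonneg F hχ hO1
  have h := starT F hχ hχ1 (φ := fun j Z => Om Z * Nn F χ Om j Z)
    (fun j Z => mul_nonneg (hO Z) (hN0 j Z)) (Ft_le_one F hχ hχ1 hO1) 1 L
    (fun m hm X hX v => by rw [mul_one]; exact safe m hm X hX v) f L le_rfl
  simp only [mul_one] at h
  have h1 : ∑ X ∈ I, F.w X * Fl F χ (fun _ => 1) L X * |f (X + 4 ^ L) - f X| ≤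
      ∑ X ∈ F.supp, F.w X * Ft F χ (fun j Z => Om Z * Nn F χ Om j Z) L X *
        |f (X + 4 ^ L) - f X| := by
    have hnn : ∀ X, 0 ≤ F.w X * Ft F χ (fun j Z => Om Z * Nn F χ Om j Z) L X *
        |f (X + 4 ^ L) - f X| := fun X =>
      mul_nonneg (mul_nonneg (F.w_nonneg X) (Ft_nonneg F hχ
        (fun j Z => mul_nonneg (hO Z) (hN0 j Z)) L X)) (abs_nonneg _)
    calc ∑ X ∈ I, F.w X * Fl F χ (fun _ => 1) L X * |f (X + 4 ^ L) - f X|
        = ∑ X ∈ I, F.w X * Ft F χ (fun j Z => Om Z * Nn F χ Om j Z) L X *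
          |f (X + 4 ^ L) - f X| := by
          refine sum_congr rfl fun X hX => ?_
          rw [Ft_eq, hI X hX, sub_self, zero_mul, sub_zero]
      _ = ∑ X ∈ I.filter (fun X => X ∈ F.supp),
          F.w X * Ft F χ (fun j Z => Om Z * Nn F χ Om j Z) L X * |f (X + 4 ^ L) - f X| := by
          symm
          refine sum_subset (filter_subset _ _) fun X hX hX' => ?_
          have : X ∉ F.supp := fun h => hX' (mem_filter.2 ⟨hX, h⟩)
          rw [F.w_off this, zero_mul, zero_mul]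
      _ ≤ _ := sum_le_sum_of_subset_of_nonneg (fun X hX => (mem_filter.1 hX).2)
          fun X _ _ => hnn X
  have h2 : ∀ j ∈ range (L + 1),
      ∑ X ∈ F.supp, F.w X * (Om X * Nn F χ Om j X) * |f (X + 4 ^ j) - f X| ≤
      wM * ∑ X ∈ I, Nn F χ Om j X * |f (X + 4 ^ j) - f X| := by
    intro j _
    rw [mul_sum]
    calc ∑ X ∈ F.supp, F.w X * (Om X * Nn F χ Om j X) * |f (X + 4 ^ j) - f X|
        = ∑ X ∈ F.supp.filter (fun X => X ∈ I),
          F.w X * (Om X * Nn F χ Om j X) * |f (X + 4 ^ j) - f X| := by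
          symm
          refine sum_subset (filter_subset _ _) fun X hX hX' => ?_
          have : X ∉ I := fun h => hX' (mem_filter.2 ⟨hX, h⟩)
          rw [hI' X this]; ring
      _ ≤ ∑ X ∈ F.supp.filter (fun X => X ∈ I),
          wM * (Nn F χ Om j X * |f (X + 4 ^ j) - f X|) := by
          refine sum_le_sum fun X hX => ?_
          rw [hI X (mem_filter.1 hX).2, one_mul, mul_assoc]
          exact mul_le_mul_of_nonneg_right (hw X) (mul_nonneg (hN0 j X) (abs_nonneg _))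
      _ ≤ _ := sum_le_sum_of_subset_of_nonneg (fun X hX => (mem_filter.1 hX).2)
          fun X _ _ => mul_nonneg hw0 (mul_nonneg (hN0 j X) (abs_nonneg _))
  have h3 := sum_le_sum h2
  rw [← mul_sum] at h3
  linarith

end H6RP3
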