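import Pool.Agent.H54.RP.Iter

/-!
Team RP (MP_a57ff3_nt), helper6. Variation for a general shift from the shifts `4 ^ i`; smoothing.
-/

set_option autoImplicit false

namespace H6RP3

open Finset H54RP

/-- variation of the shift by `d` of the states of `[a, b]` -/
noncomputable def av (f : ℤ → ℝ) (a b : ℤ) (d : ℕ) : ℝ := ∑ X ∈ Icc a b, |f (X + d) - f X|

theorem av_eq_vr (f : ℤ → ℝ) (a b : ℤ) (d : ℕ) : av f a b d = vr f a (b + d) d := by
  unfold av vr
  rw [add_sub_cancel_right]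

theorem vr_eq_av (f : ℤ → ℝ) (a b : ℤ) (d : ℕ) : vr f a b d = av f a (b - d) d := rfl

theorem av_nonneg (f : ℤ → ℝ) (a b : ℤ) (d : ℕ) : 0 ≤ av f a b d :=
  sum_nonneg fun _ _ => abs_nonneg _

/-- a translated sum -/
theorem sum_translate_le (g : ℤ → ℝ) (hg : ∀ X, 0 ≤ g X) (a b a' b' s : ℤ) (h1 : a' ≤ a + s)
    (h2 : b + s ≤ b') : ∑ X ∈ Icc a b, g (X + s) ≤ ∑ Z ∈ Icc a' b', g Z := by
  have e : ∑ X ∈ Icc a b, g (X + s) =
      ∑ Z ∈ (Icc a b).map ⟨fun X => X + s, add_left_injective s⟩, g Z := by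
    rw [sum_map]; rfl
  rw [e]
  refine sum_le_sum_of_subset_of_nonneg ?_ fun _ _ _ => hg _
  intro Z hZ
  rw [mem_map] at hZ
  obtain ⟨X, hX, rfl⟩ := hZ
  rw [mem_Icc] at hX
  simp only [Function.Embedding.coeFn_mk, mem_Icc]
  omega

theorem vr_add (f : ℤ → ℝ) (a b : ℤ) (d e : ℕ) : vr f a b (d + e) ≤ vr f a b d + vr f a b e := by
  have h2 : vr f a b (d + e) ≤ ∑ X ∈ Icc a (b - ((d + e : ℕ) : ℤ)),
      (|f (X + d) - f X| + |f ((X + d) + e) - f (X + d)|) := by
    unfold vr
    refine sum_le_sum fun X _ => ?_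
    have e1 : X + ((d + e : ℕ) : ℤ) = (X + d) + e := by push_cast; ring
    rw [e1]
    have := abs_sub_le (f ((X + d) + e)) (f (X + d)) (f X)
    linarith
  rw [sum_add_distrib] at h2
  have h3 : ∑ X ∈ Icc a (b - ((d + e : ℕ) : ℤ)), |f (X + d) - f X| ≤ vr f a b d := by
    unfold vr
    refine sum_le_sum_of_subset_of_nonneg (Icc_subset_Icc le_rfl ?_) fun _ _ _ => abs_nonneg _
    push_cast; omega
  have h4 : ∑ X ∈ Icc a (b - ((d + e : ℕ) : ℤ)), |f ((X + d) + e) - f (X + d)| ≤
      vr f a b e := by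
    unfold vr
    exact sum_translate_le (fun Z => |f (Z + e) - f Z|) (fun _ => abs_nonneg _) _ _ _ _ (d : ℤ)
      (by omega) (by push_cast; omega)
  linarith

theorem vr_mul (f : ℤ → ℝ) (a b : ℤ) (q d : ℕ) : vr f a b (q * d) ≤ q * vr f a b d := by
  induction q with
  | zero => simp [vr_zero]
  | succ q ih =>
    have h := vr_add f a b (q * d) d
    have e : (q + 1) * d = q * d + d := by ring
    rw [e]
    push_cast
    linarith

/-- shifts below `4 ^ i0` -/
theorem vr_digits (f : ℤ → ℝ) (a b : ℤ) (i0 : ℕ) (d : ℕ) (hd : d < 4 ^ i0) :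
    vr f a b d ≤ 3 * ∑ i ∈ range i0, vr f a b (4 ^ i) := by
  induction i0 generalizing d with
  | zero =>
    have : d = 0 := by simpa using hd
    subst this
    simp [vr_zero]
  | succ i0 ih =>
    rw [sum_range_succ, mul_add]
    have h1 := Nat.mod_add_div d (4 ^ i0)
    have hq : d / 4 ^ i0 < 4 := by
      rw [pow_succ] at hd
      exact Nat.div_lt_of_lt_mul hd
    have h2 := ih (d % 4 ^ i0) (Nat.mod_lt _ (by positivity))
    have h3 := vr_mul f a b (d / 4 ^ i0) (4 ^ i0)
    have h4 := vr_add f a b (d % 4 ^ i0) (d / 4 ^ i0 * 4 ^ i0)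
    have e : d % 4 ^ i0 + d / 4 ^ i0 * 4 ^ i0 = d := by rw [mul_comm (d / 4 ^ i0)]; exact h1
    rw [e] at h4
    have h5 : ((d / 4 ^ i0 : ℕ) : ℝ) * vr f a b (4 ^ i0) ≤ 3 * vr f a b (4 ^ i0) := by
      refine mul_le_mul_of_nonneg_right ?_ (vr_nonneg _ _ _ _)
      exact_mod_cast (by omega : d / 4 ^ i0 ≤ 3)
    linarith

/-- reflection of a window sum -/
theorem window_reflect (N : ℤ → ℝ) (w : ℕ) (Y : ℤ) :
    ∑ i ∈ range w, N (Y - (i : ℕ)) = ∑ i ∈ range w, N ((Y - w + 1) + (i : ℕ)) := by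
  rw [← sum_range_reflect]
  refine sum_congr rfl fun i hi => ?_
  rw [mem_range] at hi
  congr 1
  omega

/-- smoothing: a weight with small window averages -/
theorem smooth (f : ℤ → ℝ) (N : ℤ → ℝ) (hN0 : ∀ X, 0 ≤ N X) (hN1 : ∀ X, N X ≤ 1) (w h : ℕ)
    (β : ℝ) (hw : ∀ x : ℤ, ∑ i ∈ range w, N (x + (i : ℕ)) ≤ β * w) (a b : ℤ)
    (hab : 2 * (w : ℤ) ≤ b - a) :
    (w : ℝ) * ∑ X ∈ Icc a b, N X * |f (X + h) - f X| ≤
      2 * β * w * av f a b h + 4 * ∑ d ∈ range w, vr f a (b + h + w) d := by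
  set g : ℤ → ℝ := fun X => |f (X + h) - f X| with hg
  have hg0 : ∀ X, 0 ≤ g X := fun X => abs_nonneg _
  have hw' : ∀ Y : ℤ, ∑ i ∈ range w, N (Y - (i : ℕ)) ≤ β * w := fun Y => by
    rw [window_reflect]; exact hw _
  -- splitting
  have hsplit : ∑ X ∈ Icc a b, N X * g X =
      ∑ X ∈ Icc a (b - w), N X * g X + ∑ X ∈ Icc (b - w + 1) b, N X * g X := by
    have hU : Icc a b = Icc a (b - w) ∪ Icc (b - w + 1) b := by
      ext X; simp only [mem_Icc, mem_union]; omega
    rw [hU, sum_union]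
    rw [disjoint_left]
    intro X h1 h2
    rw [mem_Icc] at h1 h2
    omega
  -- left part
  have hleft : (w : ℝ) * ∑ X ∈ Icc a (b - w), N X * g X ≤
      β * w * av f a b h + 2 * ∑ d ∈ range w, vr f a (b + h + w) d := by
    have h1 : (w : ℝ) * ∑ X ∈ Icc a (b - w), N X * g X ≤
        ∑ i ∈ range w, ∑ X ∈ Icc a (b - w), (N X * g (X + i) +
          |f (X + i) - f X| + |f (X + h + i) - f (X + h)|) := by
      have e0 : (w : ℝ) * ∑ X ∈ Icc a (b - w), N X * g X =
          ∑ _i ∈ range w, ∑ X ∈ Icc a (b - w), N X * g X := by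
        rw [sum_const, card_range, nsmul_eq_mul]
      rw [e0]
      refine sum_le_sum fun i _ => sum_le_sum fun X _ => ?_
      have e : X + (i : ℤ) + h = X + h + i := by ring
      have t1 : g X ≤ g (X + i) + |f (X + i) - f X| + |f (X + h + i) - f (X + h)| := by
        simp only [hg]
        rw [e]
        have q1 := abs_sub_le (f (X + h)) (f (X + h + i)) (f X)
        have q2 := abs_sub_le (f (X + h + i)) (f (X + i)) (f X)
        rw [abs_sub_comm (f (X + h)) (f (X + h + i))] at q1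
        linarith
      have a1 := abs_nonneg (f (X + i) - f X)
      have a2 := abs_nonneg (f (X + h + i) - f (X + h))
      have a3 := hg0 (X + i)
      have n0 := hN0 X
      have n1 := hN1 X
      nlinarith [mul_le_mul_of_nonneg_left t1 n0]
    have h2 : ∑ i ∈ range w, ∑ X ∈ Icc a (b - w), N X * g (X + i) ≤ β * w * av f a b h := by
      calc ∑ i ∈ range w, ∑ X ∈ Icc a (b - w), N X * g (X + i)
          = ∑ i ∈ range w, ∑ X ∈ Icc a (b - w), (fun Y : ℤ => N (Y - (i : ℕ)) * g Y) (X + i) := by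
            refine sum_congr rfl fun i _ => sum_congr rfl fun X _ => ?_
            simp only [add_sub_cancel_right]
        _ ≤ ∑ i ∈ range w, ∑ Y ∈ Icc a b, N (Y - (i : ℕ)) * g Y := by
            refine sum_le_sum fun i hi => ?_
            rw [mem_range] at hi
            exact sum_translate_le (fun Y : ℤ => N (Y - (i : ℕ)) * g Y)
              (fun Y => mul_nonneg (hN0 _) (hg0 _)) _ _ _ _ (i : ℤ) (by omega) (by omega)
        _ = ∑ Y ∈ Icc a b, (∑ i ∈ range w, N (Y - (i : ℕ))) * g Y := by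
            rw [sum_comm]
            exact sum_congr rfl fun Y _ => by rw [sum_mul]
        _ ≤ ∑ Y ∈ Icc a b, (β * w) * g Y :=
            sum_le_sum fun Y _ => mul_le_mul_of_nonneg_right (hw' Y) (hg0 Y)
        _ = β * w * av f a b h := by rw [← mul_sum]; rfl
    have h3 : ∑ i ∈ range w, ∑ X ∈ Icc a (b - w), |f (X + i) - f X| ≤
        ∑ d ∈ range w, vr f a (b + h + w) d := by
      refine sum_le_sum fun i hi => ?_
      rw [mem_range] at hi
      unfold vr
      exact sum_le_sum_of_subset_of_nonneg (Icc_subset_Icc le_rfl (by omega))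
        fun _ _ _ => abs_nonneg _
    have h4 : ∑ i ∈ range w, ∑ X ∈ Icc a (b - w), |f (X + h + i) - f (X + h)| ≤
        ∑ d ∈ range w, vr f a (b + h + w) d := by
      refine sum_le_sum fun i hi => ?_
      rw [mem_range] at hi
      unfold vr
      exact sum_translate_le (fun Y : ℤ => |f (Y + (i : ℕ)) - f Y|) (fun _ => abs_nonneg _)
        _ _ _ _ (h : ℤ) (by omega) (by omega)
    have h5 : ∑ i ∈ range w, ∑ X ∈ Icc a (b - w), (N X * g (X + i) +
          |f (X + i) - f X| + |f (X + h + i) - f (X + h)|) =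
        ∑ i ∈ range w, ∑ X ∈ Icc a (b - w), N X * g (X + i) +
        ∑ i ∈ range w, ∑ X ∈ Icc a (b - w), |f (X + i) - f X| +
        ∑ i ∈ range w, ∑ X ∈ Icc a (b - w), |f (X + h + i) - f (X + h)| := by
      rw [← sum_add_distrib, ← sum_add_distrib]
      refine sum_congr rfl fun i _ => ?_
      rw [← sum_add_distrib, ← sum_add_distrib]
    rw [h5] at h1
    linarith
  -- right part
  have hright : (w : ℝ) * ∑ X ∈ Icc (b - w + 1) b, N X * g X ≤
      β * w * av f a b h + 2 * ∑ d ∈ range w, vr f a (b + h + w) d := by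
    have h1 : (w : ℝ) * ∑ X ∈ Icc (b - w + 1) b, N X * g X ≤
        ∑ i ∈ range w, ∑ X ∈ Icc (b - w + 1) b, (N X * g (X - i) +
          |f (X - i + i) - f (X - i)| + |f (X + h - i + i) - f (X + h - i)|) := by
      have e0 : (w : ℝ) * ∑ X ∈ Icc (b - w + 1) b, N X * g X =
          ∑ _i ∈ range w, ∑ X ∈ Icc (b - w + 1) b, N X * g X := by
        rw [sum_const, card_range, nsmul_eq_mul]
      rw [e0]
      refine sum_le_sum fun i _ => sum_le_sum fun X _ => ?_
      have e : X - (i : ℤ) + h = X + h - i := by ring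
      have e2 : X - (i : ℤ) + i = X := by ring
      have e3 : X + h - (i : ℤ) + i = X + h := by ring
      rw [e2, e3]
      have t1 : g X ≤ g (X - i) + |f X - f (X - i)| + |f (X + h) - f (X + h - i)| := by
        simp only [hg]
        rw [e]
        have q1 := abs_sub_le (f (X + h)) (f (X + h - i)) (f X)
        have q2 := abs_sub_le (f (X + h - i)) (f (X - i)) (f X)
        rw [abs_sub_comm (f (X - i)) (f X)] at q2
        linarith
      have a1 := abs_nonneg (f X - f (X - i))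
      have a2 := abs_nonneg (f (X + h) - f (X + h - i))
      have a3 := hg0 (X - i)
      have n0 := hN0 X
      have n1 := hN1 X
      nlinarith [mul_le_mul_of_nonneg_left t1 n0]
    have h2 : ∑ i ∈ range w, ∑ X ∈ Icc (b - w + 1) b, N X * g (X - i) ≤
        β * w * av f a b h := by
      calc ∑ i ∈ range w, ∑ X ∈ Icc (b - w + 1) b, N X * g (X - i)
          = ∑ i ∈ range w, ∑ X ∈ Icc (b - w + 1) b,
              (fun Y : ℤ => N (Y + (i : ℕ)) * g Y) (X + (-(i : ℤ))) := by
            refine sum_congr rfl fun i _ => sum_congr rfl fun X _ => ?_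
            simp only [neg_add_cancel_right, sub_eq_add_neg]
        _ ≤ ∑ i ∈ range w, ∑ Y ∈ Icc a b, N (Y + (i : ℕ)) * g Y := by
            refine sum_le_sum fun i hi => ?_
            rw [mem_range] at hi
            exact sum_translate_le (fun Y : ℤ => N (Y + (i : ℕ)) * g Y)
              (fun Y => mul_nonneg (hN0 _) (hg0 _)) _ _ _ _ (-(i : ℤ)) (by omega) (by omega)
        _ = ∑ Y ∈ Icc a b, (∑ i ∈ range w, N (Y + (i : ℕ))) * g Y := by
            rw [sum_comm]
            exact sum_congr rfl fun Y _ => by rw [sum_mul]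
        _ ≤ ∑ Y ∈ Icc a b, (β * w) * g Y :=
            sum_le_sum fun Y _ => mul_le_mul_of_nonneg_right (hw Y) (hg0 Y)
        _ = β * w * av f a b h := by rw [← mul_sum]; rfl
    have h3 : ∑ i ∈ range w, ∑ X ∈ Icc (b - w + 1) b, |f (X - i + i) - f (X - i)| ≤
        ∑ d ∈ range w, vr f a (b + h + w) d := by
      refine sum_le_sum fun i hi => ?_
      rw [mem_range] at hi
      unfold vr
      have := sum_translate_le (fun Y : ℤ => |f (Y + (i : ℕ)) - f Y|) (fun _ => abs_nonneg _)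
        (b - w + 1) b a (b + h + w - (i : ℤ)) (-(i : ℤ)) (by omega) (by omega)
      simpa only [sub_eq_add_neg] using this
    have h4 : ∑ i ∈ range w, ∑ X ∈ Icc (b - w + 1) b, |f (X + h - i + i) - f (X + h - i)| ≤
        ∑ d ∈ range w, vr f a (b + h + w) d := by
      refine sum_le_sum fun i hi => ?_
      rw [mem_range] at hi
      unfold vr
      have := sum_translate_le (fun Y : ℤ => |f (Y + (i : ℕ)) - f Y|) (fun _ => abs_nonneg _)
        (b - w + 1) b a (b + h + w - (i : ℤ)) ((h : ℤ) + -(i : ℤ)) (by omega) (by omega)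
      simpa only [sub_eq_add_neg, add_assoc] using this
    have h5 : ∑ i ∈ range w, ∑ X ∈ Icc (b - w + 1) b, (N X * g (X - i) +
          |f (X - i + i) - f (X - i)| + |f (X + h - i + i) - f (X + h - i)|) =
        ∑ i ∈ range w, ∑ X ∈ Icc (b - w + 1) b, N X * g (X - i) +
        ∑ i ∈ range w, ∑ X ∈ Icc (b - w + 1) b, |f (X - i + i) - f (X - i)| +
        ∑ i ∈ range w, ∑ X ∈ Icc (b - w + 1) b, |f (X + h - i + i) - f (X + h - i)| := by
      rw [← sum_add_distrib, ← sum_add_distrib]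
      refine sum_congr rfl fun i _ => ?_
      rw [← sum_add_distrib, ← sum_add_distrib]
    rw [h5] at h1
    linarith
  have hs : ∑ X ∈ Icc a b, N X * |f (X + h) - f X| = ∑ X ∈ Icc a b, N X * g X := rfl
  rw [hs, hsplit, mul_add]
  linarith

end H6RP3
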