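import Pool.Agent.H6.RP3.Chi2
import Pool.Agent.H6.RP3.Smooth

/-!
Team RP (MP_a57ff3_nt), helper6. The variation for the shift `4 ^ l`, all levels.
-/

set_option autoImplicit false

namespace H6RP3

open Finset H54RP

variable {ι : Type*} [Fintype ι] {c : ι → ℤ} {γ : Type*}

theorem av_pow (f : ℤ → ℝ) (a b : ℤ) (l : ℕ) :
    av f a b (4 ^ l) = ∑ X ∈ Icc a b, |f (X + 4 ^ l) - f X| := by
  unfold av
  refine sum_congr rfl fun X _ => ?_
  push_cast
  rfl

theorem ind_one {a b X : ℤ} (h : X ∈ Icc a b) : ind a b X = 1 := by unfold ind; rw [if_pos h]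

theorem ind_zero {a b X : ℤ} (h : X ∉ Icc a b) : ind a b X = 0 := by unfold ind; rw [if_neg h]

/-- the sum over the levels after a visit, one flow -/
theorem T_bound (F : Flow c) (f : ℤ → ℝ) (r n : ℕ) (hr : 1 ≤ r) (a' b' a1 b1 : ℤ)
    (p y : ℝ) (hp : 0 ≤ p) (hp1 : 2 * p * 4 ^ r ≤ 1)
    (hL : ∀ x : ℤ, (∀ i : ℕ, i < 4 ^ r → F.w (x + i) ≠ 0) →
      2 * p * 4 ^ r ≤ ∑ i ∈ range (4 ^ r), Fl F (fun _ _ => 1) (ind a1 b1) r (x + (i : ℕ)))
    (ha : a' ≤ a1) (hb : b1 + 4 ^ (r * n) ≤ b') (hab : 2 * 4 ^ (r * n) ≤ b' - a')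
    (j : ℕ) (hj : r * n ≤ j) (g : ℕ → ℝ)
    (hIH : ∀ i < r * n, vr f a' (b' + 4 ^ j + 4 ^ (r * n)) (4 ^ i) ≤ g i * y) :
    ∑ X ∈ Icc a' b', Nn F (chi2 F) (ind a' b') j X * |f (X + 4 ^ j) - f X| ≤
      2 * (1 - 2 * p) ^ n * av f a' b' (4 ^ j) + 12 * (∑ i ∈ range (r * n), g i) * y := by
  have hO := ind_nonneg a' b'
  have hO1 := ind_le_one a' b'
  have hN0 := Nn_nonneg F (chi2_nonneg F) hO1
  have hN1 := Nn_le_one F (chi2_nonneg F) (chi2_le_one F) hO hO1
  set w : ℕ := 4 ^ (r * n) with hw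
  have hwR : ((w : ℕ) : ℝ) = 4 ^ (r * n) := by rw [hw]; push_cast; rfl
  have hwZ : ((w : ℕ) : ℤ) = 4 ^ (r * n) := by rw [hw]; push_cast; rfl
  have hw0 : (0 : ℝ) < w := by rw [hwR]; positivity
  have hwin : ∀ x : ℤ, ∑ i ∈ range w, Nn F (chi2 F) (ind a' b') j (x + (i : ℕ)) ≤
      (1 - 2 * p) ^ n * w := by
    intro x
    rw [hwR]
    refine N_window F (ind a' b') (ind a1 b1) hO hO1 (ind_nonneg a1 b1) (ind_le_one a1 b1) r hr
      p hp hp1 hL n ?_ n (by omega) j hj x
    intro y i hi
    by_cases hy : y ∈ Icc a1 b1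
    · have hi' : (i : ℤ) < 4 ^ (r * n) := by exact_mod_cast hi
      rw [ind_one hy, ind_one]
      rw [mem_Icc] at hy ⊢
      omega
    · rw [ind_zero hy]
      exact hO _
  have hs := smooth f (fun X => Nn F (chi2 F) (ind a' b') j X) (hN0 j) (hN1 j) w (4 ^ j)
    ((1 - 2 * p) ^ n) hwin a' b' (by rw [hwZ]; exact hab)
  have hd : ∑ d ∈ range w, vr f a' (b' + ((4 ^ j : ℕ) : ℤ) + w) d ≤
      w * (3 * (∑ i ∈ range (r * n), g i) * y) := by
    have h1 : ∀ d ∈ range w, vr f a' (b' + ((4 ^ j : ℕ) : ℤ) + w) d ≤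
        3 * (∑ i ∈ range (r * n), g i) * y := by
      intro d hd
      rw [mem_range] at hd
      refine (vr_digits f _ _ (r * n) d hd).trans ?_
      rw [mul_assoc, sum_mul]
      refine mul_le_mul_of_nonneg_left (sum_le_sum fun i hi => ?_) (by norm_num)
      rw [mem_range] at hi
      have := hIH i hi
      rw [hwZ]
      push_cast
      exact this
    have h2 := sum_le_sum h1
    rw [sum_const, card_range, nsmul_eq_mul] at h2
    exact h2
  have e : ∑ X ∈ Icc a' b', Nn F (chi2 F) (ind a' b') j X * |f (X + ((4 ^ j : ℕ) : ℤ)) - f X| =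
      ∑ X ∈ Icc a' b', Nn F (chi2 F) (ind a' b') j X * |f (X + 4 ^ j) - f X| := by
    refine sum_congr rfl fun X _ => ?_
    push_cast
    rfl
  rw [e] at hs
  have hfin : (w : ℝ) * ∑ X ∈ Icc a' b', Nn F (chi2 F) (ind a' b') j X *
      |f (X + 4 ^ j) - f X| ≤ w * (2 * (1 - 2 * p) ^ n * av f a' b' (4 ^ j) +
        12 * (∑ i ∈ range (r * n), g i) * y) := by
    nlinarith
  exact le_of_mul_le_mul_left hfin hw0

/-- **the variation for the shift `4 ^ l`** -/
theorem level_bound (D : LFam c γ) (hG : 0 < D.G.card) (f : ℤ → ℝ) (r : ℕ) (hr : 1 ≤ r)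
    (A B a1 b1 : ℤ) (hab : a1 ≤ b1) (p wM E y : ℝ) (hp : 0 ≤ p) (hp1 : 2 * p * 4 ^ r ≤ 1)
    (hwM : 0 ≤ wM) (hE : ∀ g ∈ D.G, (D.F g).E1 f ≤ E)
    (hw2 : ∀ g ∈ D.G, ∀ X, (D.F g).w X ≤ wM) (hL : D.Land (ind a1 b1) r (2 * p)) (L : ℕ)
    (hsafe : ∀ m ≤ L, ∀ X ∈ Icc A B, (D.G.card : ℝ) / 2 ≤
      ∑ g ∈ D.G, (D.F g).w X * Fl (D.F g) (chi2 (D.F g)) (fun _ => 1) m X)
    (hEy : E ≤ y) (hvy : vr f A B 1 ≤ y) (g : ℕ → ℝ) (hg0 : ∀ j, 0 ≤ g j) (l0 : ℕ)
    (hG1 : ∀ l < l0, (4 : ℝ) ^ l ≤ g l)
    (hG2 : ∀ l, l0 ≤ l → ∃ n : ℕ, r * n < l ∧ 8 * wM * (1 - 2 * p) ^ n ≤ 1 ∧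
      4 * (2 * l + wM * (∑ j ∈ range (r * n), g j + 2 * (1 - 2 * p) ^ n * ∑ j ∈ range l, g j +
        12 * (l + 1) * ∑ i ∈ range (r * n), g i)) ≤ g l) :
    ∀ l ≤ L, ∀ a' b' : ℤ, A ≤ a' → a' ≤ a1 → b1 + 4 ^ l ≤ b' → b' + 2 * 4 ^ l ≤ B →
      av f a' b' (4 ^ l) ≤ g l * y := by
  have hy : 0 ≤ y := (vr_nonneg f A B 1).trans hvy
  have hp2 : 0 ≤ 1 - 2 * p := by
    have : (1 : ℝ) ≤ 4 ^ r := one_le_pow₀ (by norm_num)
    nlinarith
  have hGR : (0 : ℝ) < D.G.card := by exact_mod_cast hG
  intro l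
  induction l using Nat.strong_induction_on with
  | _ l ih =>
    intro hlL a' b' hA ha hb hB
    have h4l : (0 : ℤ) < 4 ^ l := by positivity
    rcases lt_or_ge l l0 with hlt | hge
    · -- small levels
      have h1 : av f a' b' (4 ^ l) ≤ vr f A B (4 ^ l) := by
        rw [av_eq_vr]
        exact vr_mono f hA (by push_cast; omega) _
      have h2 := vr_le_mul f A B (4 ^ l)
      have h3 := hG1 l hlt
      push_cast at h2
      calc av f a' b' (4 ^ l) ≤ 4 ^ l * vr f A B 1 := h1.trans h2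
        _ ≤ 4 ^ l * y := mul_le_mul_of_nonneg_left hvy (by positivity)
        _ ≤ g l * y := mul_le_mul_of_nonneg_right h3 hy
    · obtain ⟨n, hn, hq, hnum⟩ := hG2 l hge
      set q : ℝ := (1 - 2 * p) ^ n with hqdef
      have hq0 : 0 ≤ q := pow_nonneg hp2 n
      have hpw1 : (4 : ℤ) ^ (r * n) * 4 ≤ 4 ^ l := by
        rw [← pow_succ]; exact pow_le_pow_right₀ (by norm_num) (by omega)
      have hpw0 : (0 : ℤ) < 4 ^ (r * n) := by positivity
      -- the levels below `l` on the same interval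
      have hsame : ∀ j < l, av f a' b' (4 ^ j) ≤ g j * y := by
        intro j hj
        have hpj : (4 : ℤ) ^ j ≤ 4 ^ l := pow_le_pow_right₀ (by norm_num) hj.le
        exact ih j hj (by omega) a' b' hA ha (by omega) (by omega)
      -- the levels below `r * n` on a larger interval
      have hlow : ∀ j, j ≤ l → ∀ i < r * n,
          vr f a' (b' + 4 ^ j + 4 ^ (r * n)) (4 ^ i) ≤ g i * y := by
        intro j hj i hi
        have hpj : (4 : ℤ) ^ j ≤ 4 ^ l := pow_le_pow_right₀ (by norm_num) hj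
        have hpi : (4 : ℤ) ^ i * 4 ≤ 4 ^ (r * n) := by
          rw [← pow_succ]; exact pow_le_pow_right₀ (by norm_num) (by omega)
        have hpi0 : (0 : ℤ) < 4 ^ i := by positivity
        have hpj0 : (0 : ℤ) < 4 ^ j := by positivity
        rw [vr_eq_av]
        push_cast
        exact ih i (by omega) (by omega) a' _ hA ha (by omega) (by omega)
      -- one label
      have hone : ∀ γ0 ∈ D.G, ∑ X ∈ Icc a' b', (D.F γ0).w X *
          Fl (D.F γ0) (chi2 (D.F γ0)) (fun _ => 1) l X * |f (X + 4 ^ l) - f X| ≤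
          2 * l * y + wM * ((∑ j ∈ range (r * n), g j + 2 * q * ∑ j ∈ range l, g j +
            12 * (l + 1) * ∑ i ∈ range (r * n), g i) * y + 2 * q * av f a' b' (4 ^ l)) := by
        intro γ0 hγ0
        have hO := ind_nonneg a' b'
        have hO1 := ind_le_one a' b'
        have hN0 := Nn_nonneg (D.F γ0) (chi2_nonneg (D.F γ0)) hO1
        have hN1 := Nn_le_one (D.F γ0) (chi2_nonneg (D.F γ0)) (chi2_le_one (D.F γ0)) hO hO1
        have hlast := last_visit (D.F γ0) (chi2_nonneg _) (chi2_le_one _) hO hO1 l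
          (fun m _ X hX v => chi2_safe (D.F γ0) m X hX v) f (Icc a' b')
          (fun X hX => ind_one hX) (fun X hX => ind_zero hX) wM (hw2 γ0 hγ0) hwM
        have hE1 : 2 * (l : ℝ) * (D.F γ0).E1 f ≤ 2 * l * y :=
          mul_le_mul_of_nonneg_left ((hE γ0 hγ0).trans hEy) (by positivity)
        -- the terms
        have hT : ∀ j ∈ range (l + 1), ∑ X ∈ Icc a' b',
            Nn (D.F γ0) (chi2 (D.F γ0)) (ind a' b') j X * |f (X + 4 ^ j) - f X| ≤
            (if j < r * n then g j * y else 0) + ((if j < l then 2 * q * g j * y else 0) +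
              (if j = l then 2 * q * av f a' b' (4 ^ l) else 0) +
              12 * (∑ i ∈ range (r * n), g i) * y) := by
          intro j hj
          rw [mem_range] at hj
          have hgs : 0 ≤ ∑ i ∈ range (r * n), g i := sum_nonneg fun i _ => hg0 i
          rcases lt_or_ge j (r * n) with hjn | hjn
          · rw [if_pos hjn, if_pos (by omega), if_neg (by omega)]
            have h1 : ∑ X ∈ Icc a' b',
                Nn (D.F γ0) (chi2 (D.F γ0)) (ind a' b') j X * |f (X + 4 ^ j) - f X| ≤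
                av f a' b' (4 ^ j) := by
              rw [av_pow]
              refine sum_le_sum fun X _ => ?_
              have := abs_nonneg (f (X + 4 ^ j) - f X)
              nlinarith [hN1 j X]
            have h2 := hsame j (by omega)
            have h3 : 0 ≤ 2 * q * g j * y := by
              have := hg0 j
              positivity
            have h4 : 0 ≤ 12 * (∑ i ∈ range (r * n), g i) * y := by positivity
            linarith
          · rw [if_neg (by omega)]
            have h1 := T_bound (D.F γ0) f r n hr a' b' a1 b1 p y hp hp1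
              (fun x hx => hL γ0 hγ0 x hx) ha (by omega) (by omega) j hjn g
              (fun i hi => hlow j (by omega) i hi)
            rcases lt_or_ge j l with hjl | hjl
            · rw [if_pos hjl, if_neg (by omega)]
              have h2 := hsame j hjl
              have h3 : 2 * q * av f a' b' (4 ^ j) ≤ 2 * q * (g j * y) :=
                mul_le_mul_of_nonneg_left h2 (by positivity)
              rw [← hqdef] at h1
              linarith
            · have hjl' : j = l := by omega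
              rw [if_neg (by omega), if_pos hjl']
              rw [← hqdef, hjl'] at h1
              rw [hjl']
              linarith
        have hTs := sum_le_sum hT
        rw [sum_add_distrib, sum_add_distrib, sum_add_distrib] at hTs
        have s1 : ∑ j ∈ range (l + 1), (if j < r * n then g j * y else 0) =
            (∑ j ∈ range (r * n), g j) * y := by
          rw [← sum_filter]
          have : (range (l + 1)).filter (fun j => j < r * n) = range (r * n) := by
            ext j; simp only [mem_filter, mem_range]; omega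
          rw [this, sum_mul]
        have s2 : ∑ j ∈ range (l + 1), (if j < l then 2 * q * g j * y else 0) =
            2 * q * (∑ j ∈ range l, g j) * y := by
          rw [← sum_filter]
          have : (range (l + 1)).filter (fun j => j < l) = range l := by
            ext j; simp only [mem_filter, mem_range]; omega
          rw [this, mul_sum, sum_mul]
        have s3 : ∑ j ∈ range (l + 1), (if j = l then 2 * q * av f a' b' (4 ^ l) else 0) =
            2 * q * av f a' b' (4 ^ l) := by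
          rw [sum_ite_eq' (range (l + 1)) l, if_pos (by simp)]
        rw [s1, s2, s3, sum_const, card_range, nsmul_eq_mul] at hTs
        push_cast at hTs
        have hTs' := mul_le_mul_of_nonneg_left hTs hwM
        refine hlast.trans ?_
        refine (add_le_add hE1 hTs').trans (le_of_eq ?_)
        ring
      -- sum over the labels
      have hsum := sum_le_sum hone
      rw [sum_const, nsmul_eq_mul] at hsum
      have hlow2 : (D.G.card : ℝ) / 2 * av f a' b' (4 ^ l) ≤
          ∑ γ0 ∈ D.G, ∑ X ∈ Icc a' b', (D.F γ0).w X *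
          Fl (D.F γ0) (chi2 (D.F γ0)) (fun _ => 1) l X * |f (X + 4 ^ l) - f X| := by
        rw [sum_comm, av_pow, mul_sum]
        refine sum_le_sum fun X hX => ?_
        rw [← sum_mul]
        refine mul_le_mul_of_nonneg_right ?_ (abs_nonneg _)
        refine hsafe l hlL X ?_
        rw [mem_Icc] at hX ⊢
        omega
      have hav := av_nonneg f a' b' (4 ^ l)
      have h8 : 2 * wM * (2 * q * av f a' b' (4 ^ l)) ≤ 1 / 2 * av f a' b' (4 ^ l) := by
        have : 4 * wM * q ≤ 1 / 2 := by linarith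
        nlinarith
      set S1 : ℝ := ∑ j ∈ range (r * n), g j + 2 * q * ∑ j ∈ range l, g j +
            12 * (l + 1) * ∑ i ∈ range (r * n), g i with hS1
      have h9 : (D.G.card : ℝ) * (1 / 2 * av f a' b' (4 ^ l)) ≤
          (D.G.card : ℝ) * (2 * l * y + wM * (S1 * y + 2 * q * av f a' b' (4 ^ l))) := by
        linarith [hlow2.trans hsum]
      have h10 := le_of_mul_le_mul_left h9 hGR
      have h11 : av f a' b' (4 ^ l) ≤ 4 * (2 * l + wM * S1) * y := by nlinarith
      exact h11.trans (mul_le_mul_of_nonneg_right hnum hy)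

end H6RP3
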