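import Mathlib

/-!
Team RP (MP_a57ff3_nt), helper6. The numerical part: `g l = C (l + 1) ^ θ` satisfies the recursion.
-/

set_option autoImplicit false

namespace H6RP3

open Finset Filter

/-- integer root -/
theorem exists_root (M x : ℕ) (hM : 1 ≤ M) : ∃ n : ℕ, n ^ M ≤ x ∧ x < (n + 1) ^ M := by
  classical
  have hex : ∃ n : ℕ, x < (n + 1) ^ M := ⟨x, by
    calc x < x + 1 := Nat.lt_succ_self x
      _ = (x + 1) ^ 1 := (pow_one _).symm
      _ ≤ (x + 1) ^ M := Nat.pow_le_pow_right (by omega) hM⟩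
  refine ⟨Nat.find hex, ?_, Nat.find_spec hex⟩
  by_contra hcon
  push Not at hcon
  rcases Nat.eq_zero_or_pos (Nat.find hex) with h0 | h0
  · rw [h0, zero_pow (by omega)] at hcon
    omega
  · have h1 : x < (Nat.find hex - 1 + 1) ^ M := by
      rw [Nat.sub_add_cancel h0]; exact hcon
    exact Nat.find_min hex (Nat.sub_lt h0 one_pos) h1

/-- the recursion is satisfied by `C (l + 1) ^ θ` -/
theorem num (r : ℕ) (wM q θ : ℝ) (hwM : 0 ≤ wM) (hq0 : 0 ≤ q) (hq1 : q < 1) (hθ : 1 < θ) :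
    ∃ (l0 : ℕ) (C : ℝ), 1 ≤ C ∧ (∀ l < l0, (4 : ℝ) ^ l ≤ C * ((l : ℝ) + 1) ^ θ) ∧
      ∀ l, l0 ≤ l → ∃ n : ℕ, r * n < l ∧ 8 * wM * q ^ n ≤ 1 ∧
        4 * (2 * l + wM * (∑ j ∈ range (r * n), C * ((j : ℝ) + 1) ^ θ +
          2 * q ^ n * ∑ j ∈ range l, C * ((j : ℝ) + 1) ^ θ +
          12 * (l + 1) * ∑ i ∈ range (r * n), C * ((i : ℝ) + 1) ^ θ)) ≤
          C * ((l : ℝ) + 1) ^ θ := by
  -- the exponent
  obtain ⟨M, hM⟩ : ∃ M : ℕ, (2 + θ) / (θ - 1) ≤ M := exists_nat_ge _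
  have hθ1 : 0 < θ - 1 := by linarith
  have hM' : 2 + θ ≤ M * (θ - 1) := by
    rwa [div_le_iff₀ hθ1] at hM
  have hM2 : 2 ≤ M := by
    have h1 : (1 : ℝ) < M := by nlinarith
    have h2 : 1 < M := by exact_mod_cast h1
    exact h2
  -- conditions on `n`
  have c1 : ∀ᶠ n : ℕ in atTop, 208 * wM * (r : ℝ) ^ (1 + θ) ≤ n :=
    (tendsto_natCast_atTop_atTop (R := ℝ)).eventually_ge_atTop _
  have c2 : ∀ᶠ n : ℕ in atTop, 32 * wM * (q ^ n * ((n : ℝ) + 1) ^ M) ≤ 1 := by
    have hlim : Tendsto (fun n : ℕ => 32 * wM * (q ^ n * ((n : ℝ) + 1) ^ M)) atTop (nhds 0) := by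
      rcases eq_or_lt_of_le hq0 with h | h
      · have : Tendsto (fun _ : ℕ => (0 : ℝ)) atTop (nhds 0) := tendsto_const_nhds
        refine this.congr' ?_
        filter_upwards [eventually_ge_atTop 1] with n hn
        rw [← h, zero_pow (by omega)]; ring
      · have h1 := tendsto_pow_const_mul_const_pow_of_abs_lt_one M
          (show |q| < 1 by rw [abs_of_nonneg hq0]; exact hq1)
        have h2 := h1.comp (tendsto_add_atTop_nat 1)
        have h3 := h2.const_mul (32 * wM / q)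
        rw [mul_zero] at h3
        refine h3.congr fun n => ?_
        simp only [Function.comp]
        push_cast
        field_simp
        ring
    exact hlim.eventually_le_const (by norm_num)
  have c3 : ∀ᶠ n : ℕ in atTop, r * n + 1 < n ^ M := by
    filter_upwards [eventually_ge_atTop (r + 2)] with n hn
    calc r * n + 1 < n * n := by nlinarith
      _ = n ^ 2 := by ring
      _ ≤ n ^ M := Nat.pow_le_pow_right (by omega) hM2
  obtain ⟨n0, hn0⟩ := eventually_atTop.1 (c1.and (c2.and (c3.and (eventually_ge_atTop 1))))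
  refine ⟨(n0 + 1) ^ M, max 32 (4 ^ ((n0 + 1) ^ M)), le_trans (by norm_num) (le_max_left _ _),
    ?_, ?_⟩
  · intro l hl
    have h1 : (1 : ℝ) ≤ ((l : ℝ) + 1) ^ θ := Real.one_le_rpow (by
      have : (0 : ℝ) ≤ l := Nat.cast_nonneg l
      linarith) (by linarith)
    have h2 : (4 : ℝ) ^ l ≤ 4 ^ ((n0 + 1) ^ M) := pow_le_pow_right₀ (by norm_num) hl.le
    have h3 : (4 : ℝ) ^ ((n0 + 1) ^ M) ≤ max 32 (4 ^ ((n0 + 1) ^ M)) := le_max_right _ _
    have h4 : (0 : ℝ) ≤ 4 ^ l := by positivity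
    nlinarith
  · intro l hl
    set C : ℝ := max 32 (4 ^ ((n0 + 1) ^ M)) with hC
    have hC32 : 32 ≤ C := le_max_left _ _
    have hC0 : 0 < C := by linarith
    obtain ⟨n, hn1, hn2⟩ := exists_root M (l + 1) (by omega)
    have hn0' : n0 ≤ n := by
      by_contra hcon
      push Not at hcon
      have h1 : (n + 1) ^ M ≤ (n0 + 1) ^ M := Nat.pow_le_pow_left (by omega) M
      omega
    obtain ⟨d1, d2, d3, d4⟩ := hn0 n hn0'
    have hx : ((l : ℝ) + 1) = ((l + 1 : ℕ) : ℝ) := by push_cast; ring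
    set x : ℝ := (l : ℝ) + 1 with hxdef
    have hl0 : (0 : ℝ) ≤ l := Nat.cast_nonneg l
    have hx1 : 1 ≤ x := by rw [hxdef]; linarith
    have hx0 : 0 < x := by linarith
    have hnx : (n : ℝ) ^ M ≤ x := by
      rw [hx]; exact_mod_cast hn1
    have hxn : x ≤ ((n : ℝ) + 1) ^ M := by
      rw [hx]; exact_mod_cast hn2.le
    have hn1R : (1 : ℝ) ≤ n := by exact_mod_cast d4
    have hqn0 : 0 ≤ q ^ n := pow_nonneg hq0 n
    -- `x ^ θ = x * x ^ (θ - 1)`
    have hxθ : x ^ θ = x * x ^ (θ - 1) := by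
      rw [← Real.rpow_one_add' hx0.le (by linarith)]
      congr 1; ring
    have hxθ1 : x ≤ x ^ θ := by
      calc x = x ^ (1 : ℝ) := (Real.rpow_one x).symm
        _ ≤ x ^ θ := Real.rpow_le_rpow_of_exponent_le hx1 hθ.le
    -- sums
    have hsum : ∀ m : ℕ, ∑ j ∈ range m, C * ((j : ℝ) + 1) ^ θ ≤ C * (m : ℝ) ^ (1 + θ) := by
      intro m
      rcases Nat.eq_zero_or_pos m with hm | hm
      · subst hm
        simp only [range_zero, sum_empty]
        positivity
      · have hm0 : (0 : ℝ) < m := by exact_mod_cast hm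
        calc ∑ j ∈ range m, C * ((j : ℝ) + 1) ^ θ ≤ ∑ _j ∈ range m, C * (m : ℝ) ^ θ := by
              refine sum_le_sum fun j hj => ?_
              rw [mem_range] at hj
              refine mul_le_mul_of_nonneg_left ?_ hC0.le
              refine Real.rpow_le_rpow (by positivity) ?_ (by linarith)
              exact_mod_cast hj
          _ = m * (C * (m : ℝ) ^ θ) := by rw [sum_const, card_range, nsmul_eq_mul]
          _ = C * (m : ℝ) ^ (1 + θ) := by
              rw [Real.rpow_add hm0, Real.rpow_one]; ring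
    -- the power of `r n`
    have hrn : 208 * wM * ((r * n : ℕ) : ℝ) ^ (1 + θ) ≤ x ^ (θ - 1) := by
      have h1 : ((r * n : ℕ) : ℝ) ^ (1 + θ) = (r : ℝ) ^ (1 + θ) * (n : ℝ) ^ (1 + θ) := by
        push_cast
        rw [Real.mul_rpow (Nat.cast_nonneg r) (Nat.cast_nonneg n)]
      have h2 : (n : ℝ) * (n : ℝ) ^ (1 + θ) ≤ x ^ (θ - 1) := by
        calc (n : ℝ) * (n : ℝ) ^ (1 + θ) = (n : ℝ) ^ (2 + θ) := by
              rw [← Real.rpow_one_add' (by linarith) (by linarith)]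
              congr 1; ring
          _ ≤ (n : ℝ) ^ (M * (θ - 1)) := Real.rpow_le_rpow_of_exponent_le hn1R hM'
          _ = ((n : ℝ) ^ M) ^ (θ - 1) := by
              rw [Real.rpow_mul (by linarith), Real.rpow_natCast]
          _ ≤ x ^ (θ - 1) := Real.rpow_le_rpow (by positivity) hnx hθ1.le
      rw [h1]
      have h3 : 0 ≤ (n : ℝ) ^ (1 + θ) := by positivity
      calc 208 * wM * ((r : ℝ) ^ (1 + θ) * (n : ℝ) ^ (1 + θ)) =
            (208 * wM * (r : ℝ) ^ (1 + θ)) * (n : ℝ) ^ (1 + θ) := by ring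
        _ ≤ n * (n : ℝ) ^ (1 + θ) := mul_le_mul_of_nonneg_right d1 h3
        _ ≤ _ := h2
    have hqx : 32 * wM * (q ^ n * x) ≤ 1 := by
      refine le_trans ?_ d2
      refine mul_le_mul_of_nonneg_left (mul_le_mul_of_nonneg_left hxn hqn0) (by positivity)
    refine ⟨n, by omega, ?_, ?_⟩
    · have h1 : q ^ n ≤ q ^ n * x := le_mul_of_one_le_right hqn0 hx1
      have h2 : 8 * wM * q ^ n ≤ 8 * wM * (q ^ n * x) :=
        mul_le_mul_of_nonneg_left h1 (by positivity)
      have h3 : 0 ≤ wM * (q ^ n * x) := by positivity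
      linarith
    · have s1 := hsum (r * n)
      have s2 := hsum l
      have hl1 : (l : ℝ) ^ (1 + θ) ≤ x * x ^ θ := by
        calc (l : ℝ) ^ (1 + θ) ≤ x ^ (1 + θ) := Real.rpow_le_rpow hl0 (by rw [hxdef]; linarith)
              (by linarith)
          _ = x * x ^ θ := by rw [Real.rpow_one_add' hx0.le (by linarith)]
      set R : ℝ := ((r * n : ℕ) : ℝ) ^ (1 + θ) with hR
      have hR0 : 0 ≤ R := by positivity
      have hxθ0 : 0 ≤ x ^ θ := by positivity
      have hxθ10 : 0 ≤ x ^ (θ - 1) := by positivity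
      -- first part
      have p1 : 4 * (2 * (l : ℝ)) ≤ C * x ^ θ / 4 := by
        have : (l : ℝ) ≤ x ^ θ := by linarith
        nlinarith
      have p2 : 4 * (wM * (∑ j ∈ range (r * n), C * ((j : ℝ) + 1) ^ θ +
          12 * x * ∑ i ∈ range (r * n), C * ((i : ℝ) + 1) ^ θ)) ≤ C * x ^ θ / 4 := by
        have h1 : ∑ j ∈ range (r * n), C * ((j : ℝ) + 1) ^ θ +
          12 * x * ∑ i ∈ range (r * n), C * ((i : ℝ) + 1) ^ θ ≤ 13 * x * (C * R) := by
          have h2 : 12 * x * ∑ i ∈ range (r * n), C * ((i : ℝ) + 1) ^ θ ≤ 12 * x * (C * R) :=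
            mul_le_mul_of_nonneg_left s1 (by positivity)
          have h3 : C * R ≤ x * (C * R) := le_mul_of_one_le_left (by positivity) hx1
          linarith
        have h4 : wM * (∑ j ∈ range (r * n), C * ((j : ℝ) + 1) ^ θ +
          12 * x * ∑ i ∈ range (r * n), C * ((i : ℝ) + 1) ^ θ) ≤ wM * (13 * x * (C * R)) :=
          mul_le_mul_of_nonneg_left h1 hwM
        have h5 : 4 * (wM * (13 * x * (C * R))) = C * x * (208 * wM * R) / 4 := by ring
        have h6 : C * x * (208 * wM * R) ≤ C * x * x ^ (θ - 1) :=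
          mul_le_mul_of_nonneg_left hrn (by positivity)
        rw [hxθ]
        linarith
      have p3 : 4 * (wM * (2 * q ^ n * ∑ j ∈ range l, C * ((j : ℝ) + 1) ^ θ)) ≤
          C * x ^ θ / 4 := by
        have h1 : ∑ j ∈ range l, C * ((j : ℝ) + 1) ^ θ ≤ C * (x * x ^ θ) :=
          s2.trans (mul_le_mul_of_nonneg_left hl1 hC0.le)
        have h2 : wM * (2 * q ^ n * ∑ j ∈ range l, C * ((j : ℝ) + 1) ^ θ) ≤
            wM * (2 * q ^ n * (C * (x * x ^ θ))) :=
          mul_le_mul_of_nonneg_left (mul_le_mul_of_nonneg_left h1 (by positivity)) hwM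
        have h3 : 4 * (wM * (2 * q ^ n * (C * (x * x ^ θ)))) =
            (32 * wM * (q ^ n * x)) * (C * x ^ θ) / 4 := by ring
        have h4 : (32 * wM * (q ^ n * x)) * (C * x ^ θ) ≤ 1 * (C * x ^ θ) :=
          mul_le_mul_of_nonneg_right hqx (by positivity)
        linarith
      have hCx : 0 ≤ C * x ^ θ := by positivity
      have e : 4 * (2 * (l : ℝ) + wM * (∑ j ∈ range (r * n), C * ((j : ℝ) + 1) ^ θ +
          2 * q ^ n * ∑ j ∈ range l, C * ((j : ℝ) + 1) ^ θ +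
          12 * x * ∑ i ∈ range (r * n), C * ((i : ℝ) + 1) ^ θ)) =
          4 * (2 * (l : ℝ)) + 4 * (wM * (∑ j ∈ range (r * n), C * ((j : ℝ) + 1) ^ θ +
          12 * x * ∑ i ∈ range (r * n), C * ((i : ℝ) + 1) ^ θ)) +
          4 * (wM * (2 * q ^ n * ∑ j ∈ range l, C * ((j : ℝ) + 1) ^ θ)) := by ring
      rw [e]
      linarith

end H6RP3
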